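import Pool.Agent.H.MP_9b8acd_an.Rigid
import Pool.Agent.Lib.helper22.SeqSpace

namespace Pool.Agent.H.MP_9b8acd_an

open Finset

abbrev T : Type := Σ j : ℕ, Fin (4 ^ j)

def D (m : ℕ) : Finset T := (range m).sigma fun _ => univ

theorem mem_D (m : ℕ) (τ : T) : τ ∈ D m ↔ τ.1 < m := by simp [D]

theorem D_mono {m n : ℕ} (h : m ≤ n) : D m ⊆ D n := fun _ hτ =>
  (mem_D _ _).2 (((mem_D _ _).1 hτ).trans_le h)

noncomputable def W (τ : T) : ℝ := (1 / 2) ^ τ.1

theorem W_pos (τ : T) : 0 < W τ := by unfold W; positivity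

theorem W_le (τ : T) : W τ ≤ 1 := pow_le_one₀ (by norm_num) (by norm_num)

theorem four_pow (j : ℕ) : (4 : ℝ) ^ j * (1 / 2) ^ j = 2 ^ j := by rw [← mul_pow]; norm_num

theorem sum_W (r : ℕ) : ∑ τ ∈ D r, W τ ≤ 2 ^ r := by
  rw [D, sum_sigma]
  simp only [W, sum_const, card_univ, Fintype.card_fin, nsmul_eq_mul, Nat.cast_pow, Nat.cast_ofNat,
    four_pow]
  induction r with
  | zero => simp
  | succ r ih => rw [sum_range_succ, pow_succ]; linarith

theorem sum_W_sq (r : ℕ) : ∑ τ ∈ D r, W τ ^ 2 = r := by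
  rw [D, sum_sigma]
  simp only [W, sum_const, card_univ, Fintype.card_fin, nsmul_eq_mul, Nat.cast_pow, Nat.cast_ofNat]
  rw [sum_congr rfl (g := fun _ => (1 : ℝ)) fun j _ => by
    rw [← pow_mul, mul_comm j, pow_mul, ← mul_pow]; norm_num]
  simp

variable {I : Type} [DecidableEq I]

theorem sum_inj (φ : T → I) (S : Finset T) (hφ : Set.InjOn φ S) (U : Finset I) (h : I → ℝ)
    (h0 : ∀ i, 0 ≤ h i) (hU : ∀ i ∉ U, h i = 0) : ∑ τ ∈ S, h (φ τ) ≤ ∑ i ∈ U, h i := by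
  rw [← sum_image hφ, ← sum_filter_add_sum_filter_not _ (· ∈ U),
    sum_eq_zero (s := filter (· ∉ U) _) fun i hi => hU i (mem_filter.1 hi).2, add_zero]
  exact sum_le_sum_of_subset_of_nonneg (fun i hi => (mem_filter.1 hi).2) fun i _ _ => h0 i

theorem greedy (a : I → ℝ) (A B : Finset I) (hA : ∀ i ∈ A, ∀ j ∉ A, |a j| ≤ |a i|)
    (hB : B.card ≤ A.card) (hne : A ≠ B) (M : ℝ) (M0 : 0 ≤ M)
    (h2 : ∀ S : Finset I, ∑ i ∈ S, (if i ∈ B then 0 else a i) ^ 2 ≤ M ^ 2) :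
    (∀ S : Finset I, ∑ i ∈ S, (if i ∈ A then 0 else a i) ^ 2 ≤ 2 * M ^ 2) ∧
    ∀ (φ : T → I) (m : ℕ), Set.InjOn φ (D m) →
      (∀ r ≤ m, |∑ τ ∈ D r, W τ * (if φ τ ∈ B then 0 else a (φ τ))| ≤ M) →
      |∑ τ ∈ D m, W τ * (if φ τ ∈ A then 0 else a (φ τ))| ≤ 6 * M := by
  have hk : (B \ A).card ≤ (A \ B).card := by
    have := card_sdiff_add_card_inter A B
    have := card_sdiff_add_card_inter B A
    rw [inter_comm] at this
    omega
  have hn : (A \ B).Nonempty := by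
    rw [sdiff_nonempty]
    exact fun h => hne (eq_of_subset_of_card_le h hB)
  obtain ⟨i0, hi0, hmin⟩ := exists_min_image A (fun i => |a i|) (hn.mono sdiff_subset)
  set t := |a i0| with ht
  have t0 : 0 ≤ t := abs_nonneg _
  have hout : ∀ j ∉ A, |a j| ≤ t := hA i0 hi0
  have s1 : ∑ i ∈ A \ B, a i ^ 2 ≤ M ^ 2 := le_trans (le_of_eq (sum_congr rfl fun i hi => by
    rw [if_neg (mem_sdiff.1 hi).2])) (h2 (A \ B))
  have s2 : ((A \ B).card : ℝ) * t ^ 2 ≤ M ^ 2 := by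
    refine le_trans ?_ s1
    rw [← nsmul_eq_mul]
    exact card_nsmul_le_sum _ _ _ fun i hi => by
      rw [← sq_abs (a i)]; exact pow_le_pow_left₀ t0 (hmin i (mem_sdiff.1 hi).1) 2
  have s3 : ((B \ A).card : ℝ) * t ^ 2 ≤ M ^ 2 :=
    le_trans (mul_le_mul_of_nonneg_right (by exact_mod_cast hk) (sq_nonneg _)) s2
  have tM : t ≤ M := by
    have : (1 : ℝ) ≤ (A \ B).card := by exact_mod_cast hn.card_pos
    exact abs_le_of_sq_le_sq' (by nlinarith [sq_nonneg t]) M0 |>.2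
  refine ⟨fun S => ?_, fun φ m hφ hf => ?_⟩
  · have b1 : ∑ i ∈ S, (if i ∈ B \ A then t ^ 2 else 0) ≤ M ^ 2 := by
      rw [← sum_filter, sum_const, nsmul_eq_mul]
      refine le_trans (mul_le_mul_of_nonneg_right ?_ (sq_nonneg _)) s3
      exact_mod_cast card_le_card fun i hi => (mem_filter.1 hi).2
    have b2 := add_le_add (h2 S) b1
    rw [← sum_add_distrib] at b2
    refine le_trans (sum_le_sum fun i _ => ?_) (b2.trans (by linarith))
    by_cases h1 : i ∈ A <;> by_cases h3 : i ∈ B <;> simp [h1, h3]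
    · positivity
    · rw [← sq_abs (a i)]; exact pow_le_pow_left₀ (abs_nonneg _) (hout i h1) 2
  have hz : ∀ i, |if i ∈ A then 0 else a i| ≤ t := fun i => by
    split_ifs with h
    · simpa using t0
    · exact hout i h
  have head : ∀ r, |∑ τ ∈ D r, W τ * (if φ τ ∈ A then 0 else a (φ τ))| ≤ 2 ^ r * t := fun r => by
    refine (abs_sum_le_sum_abs _ _).trans (le_trans (sum_le_sum (g := fun τ => W τ * t) fun τ _ => ?_) ?_)
    · rw [abs_mul, abs_of_pos (W_pos τ)]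
      exact mul_le_mul_of_nonneg_left (hz _) (W_pos τ).le
    · rw [← sum_mul]; exact mul_le_mul_of_nonneg_right (sum_W r) t0
  rcases t0.eq_or_lt with h0 | t0'
  · have := head m
    rw [← h0] at this
    linarith
  obtain ⟨r, r1, r2⟩ : ∃ r : ℕ, M ≤ 2 ^ r * t ∧ 2 ^ r * t ≤ 2 * M := by
    have ex : ∃ r : ℕ, M ≤ 2 ^ r * t := by
      obtain ⟨r, hr⟩ := pow_unbounded_of_one_lt (M / t) (one_lt_two (α := ℝ))
      exact ⟨r, ((div_lt_iff₀ t0').1 hr).le⟩
    refine ⟨Nat.find ex, Nat.find_spec ex, ?_⟩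
    rcases h : Nat.find ex with _ | r
    · linarith
    · have := Nat.find_min ex (m := r) (by omega)
      rw [pow_succ]; linarith
  by_cases hm : m ≤ r
  · have := pow_le_pow_right₀ (one_le_two (α := ℝ)) hm
    nlinarith [head m]
  have sub := D_mono (show r ≤ m by omega)
  let h : I → ℝ := fun i => |(if i ∈ A then 0 else a i) - if i ∈ B then 0 else a i|
  have c1 : t * ∑ i ∈ A \ B ∪ B \ A, h i ≤ 2 * M ^ 2 := by
    rw [sum_union disjoint_sdiff_sdiff, mul_add, mul_sum, mul_sum]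
    have d1 : ∑ i ∈ A \ B, t * h i ≤ ∑ i ∈ A \ B, a i ^ 2 := sum_le_sum fun i hi => by
      rw [mem_sdiff] at hi
      simp only [h, if_pos hi.1, if_neg hi.2, zero_sub, abs_neg]
      rw [← sq_abs, sq]
      exact mul_le_mul_of_nonneg_right (hmin i hi.1) (abs_nonneg _)
    have d2 : ∑ i ∈ B \ A, t * h i ≤ (B \ A).card • t ^ 2 := sum_le_card_nsmul _ _ _ fun i hi => by
      rw [mem_sdiff] at hi
      simp only [h, if_pos hi.1, if_neg hi.2, sub_zero]
      rw [sq]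
      exact mul_le_mul_of_nonneg_left (hout i hi.2) t0
    rw [nsmul_eq_mul] at d2
    linarith
  have c2 := sum_inj φ (D m \ D r) (hφ.mono (by simp)) (A \ B ∪ B \ A) h (fun i => abs_nonneg _)
    fun i hi => by
      by_cases h1 : i ∈ A <;> by_cases h3 : i ∈ B <;> simp [h, h1, h3] at hi ⊢
  have c3 : |∑ τ ∈ D m \ D r, W τ * (if φ τ ∈ A then 0 else a (φ τ)) -
      ∑ τ ∈ D m \ D r, W τ * (if φ τ ∈ B then 0 else a (φ τ))| ≤
      (1 / 2) ^ r * ∑ τ ∈ D m \ D r, h (φ τ) := by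
    rw [← sum_sub_distrib, mul_sum]
    refine (abs_sum_le_sum_abs _ _).trans (sum_le_sum fun τ hτ => ?_)
    rw [← mul_sub, abs_mul, abs_of_pos (W_pos τ)]
    refine mul_le_mul_of_nonneg_right ?_ (abs_nonneg _)
    exact pow_le_pow_of_le_one (by norm_num) (by norm_num)
      (by simpa [mem_D] using (mem_sdiff.1 hτ).2)
  have c4 : (1 / 2) ^ r * ∑ τ ∈ D m \ D r, h (φ τ) ≤ 2 * M := by
    rw [one_div, inv_pow, inv_mul_le_iff₀ (by positivity)]
    refine c2.trans (le_of_mul_le_mul_left (c1.trans ?_) t0')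
    nlinarith
  have c5 := hf m le_rfl
  have c6 := hf r (by omega)
  have c7 := head r
  rw [← sum_sdiff sub] at c5 ⊢
  rw [abs_le] at *
  constructor <;> linarith [c3.1, c3.2, c5.1, c5.2, c6.1, c6.2, c7.1, c7.2]

theorem average (p : ℕ) [Fact p.Prime] (t : T → ZMod p) (L : ℕ)
    (ht : ∀ a ∈ D L, ∀ b ∈ D L, t a = t b → a = b) (g : ZMod p → ℝ) (g0 : ∑ v, g v = 0)
    (g1 : ∀ v, |g v| ≤ 1) :
    ∃ x u : ZMod p, ∑ j ∈ range L, |∑ i : Fin (4 ^ j), W ⟨j, i⟩ ^ 2 * g (x + t ⟨j, i⟩ * u)| ≤ 2 := by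
  have cov : ∀ s s' : ZMod p, s ≠ s' →
      ∑ q : ZMod p × ZMod p, g (q.1 + s * q.2) * g (q.1 + s' * q.2) = 0 := fun s s' h => by
    have e : ∑ q : ZMod p × ZMod p, g (q.1 + s * q.2) * g (q.1 + s' * q.2) =
        ∑ q : ZMod p × ZMod p, g q.1 * g q.2 := by
      refine Fintype.sum_bijective (fun q => (q.1 + s * q.2, q.1 + s' * q.2))
        (Finite.injective_iff_bijective.1 fun q q' e => ?_) _ _ fun _ => rfl
      obtain ⟨e1, e2⟩ := Prod.mk.inj e
      have e3 : q.2 = q'.2 := mul_left_cancel₀ (sub_ne_zero.2 h) (by linear_combination e1 - e2)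
      exact Prod.ext (by linear_combination e1 - s * e3) e3
    rw [e, Fintype.sum_prod_type, ← sum_mul_sum, g0, zero_mul]
  have lev : ∀ j ∈ range L, ∑ q : ZMod p × ZMod p, (∑ i : Fin (4 ^ j), g (q.1 + t ⟨j, i⟩ * q.2)) ^ 2 ≤
      4 ^ j * Fintype.card (ZMod p × ZMod p) := fun j hj => by
    simp only [sq, sum_mul_sum]
    rw [sum_comm]
    refine (sum_le_card_nsmul _ _ (Fintype.card (ZMod p × ZMod p) : ℝ) fun i _ => ?_).trans (by simp)
    rw [sum_comm, sum_eq_single i (fun k _ hk => cov _ _ fun e => hk ?_) (by simp)]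
    · refine (sum_le_card_nsmul _ _ 1 fun q _ => ?_).trans (by simp)
      rw [← abs_mul_abs_self]
      exact mul_le_one₀ (g1 _) (abs_nonneg _) (g1 _)
    · have := ht _ ((mem_D _ _).2 (mem_range.1 hj)) _ ((mem_D _ _).2 (mem_range.1 hj)) e
      exact (eq_of_heq (Sigma.mk.inj this).2).symm
  obtain ⟨q, -, hq⟩ := exists_le_of_sum_le (s := (univ : Finset (ZMod p × ZMod p))) univ_nonempty
    (f := fun q => ∑ j ∈ range L, (1 / 8 : ℝ) ^ j * (∑ i : Fin (4 ^ j), g (q.1 + t ⟨j, i⟩ * q.2)) ^ 2)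
    (g := fun _ => ∑ j ∈ range L, (1 / 2 : ℝ) ^ j) (by
      rw [sum_comm, sum_comm (s := univ)]
      refine sum_le_sum fun j hj => ?_
      rw [← mul_sum]
      refine (mul_le_mul_of_nonneg_left (lev j hj) (by positivity)).trans (le_of_eq ?_)
      rw [← mul_assoc, ← mul_pow, sum_const, card_univ, nsmul_eq_mul, mul_comm]
      norm_num)
  refine ⟨q.1, q.2, ?_⟩
  have gs := sum_geometric_two_le L
  refine le_trans (sum_le_sum (g := fun j => ((1 / 8 : ℝ) ^ j *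
    (∑ i : Fin (4 ^ j), g (q.1 + t ⟨j, i⟩ * q.2)) ^ 2 + (1 / 2 : ℝ) ^ j) / 2) fun j _ => ?_) ?_
  · simp only [W]
    rw [← mul_sum, abs_mul, abs_of_pos (by positivity), ← sq_abs (∑ i, _)]
    have e : (1 / 8 : ℝ) ^ j = ((1 / 2) ^ j) ^ 3 := by rw [← pow_mul, mul_comm, pow_mul]; norm_num
    rw [e]
    have s0 : 0 < (1 / 2 : ℝ) ^ j := by positivity
    generalize (1 / 2 : ℝ) ^ j = s at *
    generalize |∑ i : Fin (4 ^ j), g (q.1 + t ⟨j, i⟩ * q.2)| = y
    nlinarith [mul_nonneg s0.le (sq_nonneg (s * y - 1))]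
  · rw [← sum_div, sum_add_distrib]
    linarith

end Pool.Agent.H.MP_9b8acd_an
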