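import Pool.Agent.H.MP_9b8acd_an.Greedy

namespace Pool.Agent.H.MP_9b8acd_an

open Finset Filter Topology Pool.Agent.Lib.helper22 SeqSpace

noncomputable def pr (L : ℕ) : ℕ := (rigid (D L)).choose

noncomputable def tt (L : ℕ) : T → ZMod (pr L) := (rigid (D L)).choose_spec.choose

theorem spec (L : ℕ) : (pr L).Prime ∧ (∀ a ∈ D L, ∀ b ∈ D L, tt L a = tt L b → a = b) ∧
    ∀ (x u x' u' : ZMod (pr L)) (B : Finset T), u ≠ 0 → u' ≠ 0 → B ⊆ D L →
      (∀ b ∈ B, ∃ a ∈ D L, x' + tt L b * u' = x + tt L a * u) → 2 < B.card → x = x' ∧ u = u' :=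
  (rigid (D L)).choose_spec.choose_spec

instance (L : ℕ) : Fact (pr L).Prime := ⟨(spec L).1⟩

abbrev I : Type := Σ L : ℕ, ZMod (pr L)

noncomputable instance : DecidableEq I := Classical.decEq _

instance : Infinite I := Infinite.of_injective (fun L => (⟨L, 0⟩ : I)) fun _ _ h =>
  (Sigma.mk.inj h).1

noncomputable def φ (L : ℕ) (x u : ZMod (pr L)) (τ : T) : I := ⟨L, x + tt L τ * u⟩

theorem φ_inj (L : ℕ) (x u : ZMod (pr L)) (hu : u ≠ 0) (m : ℕ) (hm : m ≤ L) :
    Set.InjOn (φ L x u) (D m) := fun a ha b hb e =>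
  (spec L).2.1 a (D_mono hm ha) b (D_mono hm hb)
    (mul_right_cancel₀ hu (add_left_cancel (eq_of_heq (Sigma.mk.inj e).2)))

noncomputable def edge (L : ℕ) (x u : ZMod (pr L)) (m : ℕ) : I →₀ ℝ :=
  ∑ τ ∈ D m, Finsupp.single (φ L x u τ) (W τ)

noncomputable def TT : Tests I where
  G := {w | ∑ i ∈ w.support, w i ^ 2 ≤ 1 ∨ ∃ L x u m, u ≠ 0 ∧ m ≤ L ∧ w = edge L x u m}
  bd := by
    rintro w (h | ⟨L, x, u, m, hu, hm, rfl⟩) i
    · by_cases hi : i ∈ w.support
      · exact abs_le_one_iff_mul_self_le_one.2 (by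
          rw [← sq]; exact (single_le_sum (fun i _ => sq_nonneg (w i)) hi).trans h)
      · simp [Finsupp.notMem_support_iff.1 hi]
    · have := sum_inj _ _ (φ_inj L x u hu m hm) {i} (fun k => if k = i then 1 else 0)
        (fun k => by positivity) (by simp)
      rw [edge, Finsupp.finsetSum_apply]
      rw [sum_singleton, if_pos rfl] at this
      refine (abs_sum_le_sum_abs _ _).trans ((sum_le_sum fun τ _ => ?_).trans this)
      rw [Finsupp.single_apply]
      split_ifs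
      · rw [abs_of_pos (W_pos τ)]; exact W_le τ
      · simp
  single_mem i := Or.inl (by rw [Finsupp.support_single _ one_ne_zero]; simp)

theorem lc_edge (a : I → ℝ) (L : ℕ) (x u : ZMod (pr L)) (m : ℕ) :
    Finsupp.linearCombination ℝ a (edge L x u m) = ∑ τ ∈ D m, W τ * a (φ L x u τ) := by
  simp [edge]

theorem norm_le (v : X TT) (M : ℝ) (M0 : 0 ≤ M) (h1 : ∀ S : Finset I, ∑ i ∈ S, f TT i v ^ 2 ≤ M ^ 2)
    (h2 : ∀ L x u m, u ≠ 0 → m ≤ L → |∑ τ ∈ D m, W τ * f TT (φ L x u τ) v| ≤ M) : ‖v‖ ≤ M := by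
  refine (norm_iff TT v M M0).2 ?_
  rintro w (h | ⟨L, x, u, m, hu, hm, rfl⟩)
  · refine abs_le.2 (abs_le_of_sq_le_sq' ?_ M0)
    refine (sum_mul_sq_le_sq_mul_sq w.support (fun i => w i) fun i => f TT i v).trans ?_
    exact (mul_le_of_le_one_left (sum_nonneg fun _ _ => sq_nonneg _) h).trans (h1 _)
  · rw [lc_edge]; exact h2 L x u m hu hm

theorem edge_le (v : X TT) (L : ℕ) (x u : ZMod (pr L)) (m : ℕ) (hu : u ≠ 0) (hm : m ≤ L) :
    |∑ τ ∈ D m, W τ * f TT (φ L x u τ) v| ≤ ‖v‖ := by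
  rw [← lc_edge (fun i => f TT i v)]
  exact (norm_iff TT v _ (norm_nonneg _)).1 le_rfl _ (Or.inr ⟨L, x, u, m, hu, hm, rfl⟩)

theorem sq_le (v : X TT) (S : Finset I) : ∑ i ∈ S, f TT i v ^ 2 ≤ ‖v‖ ^ 2 := by
  set s := ∑ i ∈ S, f TT i v ^ 2 with hs
  have s0 : 0 ≤ s := sum_nonneg fun _ _ => sq_nonneg _
  rcases s0.eq_or_lt with h | h
  · rw [← h]; positivity
  have r0 := Real.sqrt_pos.2 h
  have := (norm_iff TT v _ (norm_nonneg _)).1 le_rfl
    (Finsupp.onFinset S (fun i => if i ∈ S then f TT i v / √s else 0) fun i hi => by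
      by_contra hn; exact hi (if_neg hn)) (Or.inl (by
      refine (sum_le_sum_of_subset_of_nonneg Finsupp.support_onFinset_subset
        fun _ _ _ => sq_nonneg _).trans (le_of_eq ?_)
      rw [sum_congr rfl (g := fun i => f TT i v ^ 2 / s) fun i hi => by
        rw [Finsupp.onFinset_apply, if_pos hi, div_pow, Real.sq_sqrt s0], ← sum_div,
        div_self h.ne']))
  rw [Finsupp.linearCombination_onFinset, sum_congr rfl (g := fun i => f TT i v ^ 2 / √s)
    fun i hi => by rw [if_pos hi, smul_eq_mul]; ring, ← sum_div, ← hs, Real.div_sqrt,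
    abs_of_pos r0] at this
  exact (Real.sqrt_le_left (norm_nonneg _)).1 this

theorem almost (v : X TT) (A B : Finset I) (hA : ∀ i ∈ A, ∀ j ∉ A, |f TT j v| ≤ |f TT i v|)
    (hB : B.card ≤ A.card) :
    ‖v - ∑ i ∈ A, f TT i v • x TT i‖ ≤ 6 * ‖v - ∑ i ∈ B, f TT i v • x TT i‖ := by
  have n0 := norm_nonneg (v - ∑ i ∈ B, f TT i v • x TT i)
  by_cases h : A = B
  · rw [h]; linarith
  obtain ⟨h1, h2⟩ := greedy (fun i => f TT i v) A B hA hB h _ n0 fun S => by
    simpa only [f_cut] using sq_le (v - ∑ i ∈ B, f TT i v • x TT i) S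
  refine norm_le _ _ (by positivity) (fun S => ?_) fun L y u m hu hm => ?_
  · simp only [f_cut]
    nlinarith [h1 S]
  · simp only [f_cut]
    exact h2 _ m (φ_inj L y u hu m hm) fun r hr => by
      simpa only [f_cut] using edge_le (v - ∑ i ∈ B, f TT i v • x TT i) L y u r hu (hr.trans hm)

theorem bad (L : ℕ) (hL : 6 < L) (P : Finset I)
    (hP : (univ.filter fun v : ZMod (pr L) => (⟨L, v⟩ : I) ∈ P).card = pr L / 2) (s : ℝ)
    (s2 : 2 ≤ s) (hs : L ≤ s ^ 2) :
    ∃ v : X TT, ‖v‖ ≤ s ∧ (L / 3 - 2) / 2 ≤ ‖∑ i ∈ P, f TT i v • x TT i‖ := by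
  have p2 := (spec L).1.two_le
  have p0 : (0 : ℝ) < pr L := by exact_mod_cast (show 0 < pr L by omega)
  set ρ : ℝ := (pr L / 2 : ℕ) / pr L with hρ
  have ρ1 : 1 / 3 ≤ ρ := by
    rw [hρ, div_le_div_iff₀ (by norm_num) p0]
    exact_mod_cast (show 1 * pr L ≤ pr L / 2 * 3 by omega)
  have ρ2 : ρ ≤ 1 / 2 := by
    rw [hρ, div_le_div_iff₀ p0 (by norm_num)]
    exact_mod_cast (show pr L / 2 * 2 ≤ 1 * pr L by omega)
  let g : I → ℝ := fun i => (if i ∈ P then 1 else 0) - ρ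
  have g1 : ∀ i, |g i| ≤ 1 := fun i => by
    simp only [g]; rw [abs_le]; split_ifs <;> constructor <;> linarith
  obtain ⟨y, u, h⟩ := average (pr L) (tt L) L (spec L).2.1 (fun v => g ⟨L, v⟩) (by
    simp only [g]
    rw [sum_sub_distrib, sum_boole, hP, sum_const, card_univ, ZMod.card, nsmul_eq_mul, hρ]
    field_simp; ring) fun v => g1 _
  have hD : ∀ m ≤ L, |∑ τ ∈ D m, W τ ^ 2 * g (φ L y u τ)| ≤ 2 := fun m hm => by
    rw [D, sum_sigma]
    exact (abs_sum_le_sum_abs _ _).trans ((sum_le_sum_of_subset_of_nonneg (range_mono hm)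
      fun _ _ _ => abs_nonneg _).trans h)
  have L7 : (7 : ℝ) ≤ L := by exact_mod_cast hL
  have hu : u ≠ 0 := by
    rintro rfl
    have := hD L le_rfl
    simp only [φ, mul_zero, add_zero] at this
    rw [← sum_mul, sum_W_sq] at this
    simp only [g] at this
    rw [abs_le] at this
    split_ifs at this <;> nlinarith [this.1, this.2]
  have inj := φ_inj L y u hu L le_rfl
  let v : X TT := ∑ τ ∈ D L, (W τ * g (φ L y u τ)) • x TT (φ L y u τ)
  have fv : ∀ τ ∈ D L, f TT (φ L y u τ) v = W τ * g (φ L y u τ) := fun τ hτ => by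
    simp only [v, map_sum, map_smul, f_x, smul_eq_mul]
    rw [sum_eq_single τ (fun σ hσ n => by rw [if_neg fun e => n (inj hτ hσ e).symm, mul_zero])
      fun n => absurd hτ n, if_pos rfl, mul_one]
  have fv0 : ∀ i, (∀ τ ∈ D L, i ≠ φ L y u τ) → f TT i v = 0 := fun i hi => by
    simp only [v, map_sum, map_smul, f_x, smul_eq_mul]
    exact sum_eq_zero fun τ hτ => by rw [if_neg (hi τ hτ), mul_zero]
  have fb : ∀ τ ∈ D L, |f TT (φ L y u τ) v| ≤ W τ := fun τ hτ => by
    rw [fv τ hτ, abs_mul, abs_of_pos (W_pos τ)]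
    exact mul_le_of_le_one_right (W_pos τ).le (g1 _)
  refine ⟨v, norm_le _ _ (by linarith) (fun S => ?_) fun L' y' u' m hu' hm => ?_, ?_⟩
  · rw [← sum_filter_add_sum_filter_not _ (· ∈ (D L).image (φ L y u)),
      sum_eq_zero (s := filter (· ∉ (D L).image (φ L y u)) _) fun i hi => by
        rw [fv0 i fun τ hτ e => (mem_filter.1 hi).2 (mem_image.2 ⟨τ, hτ, e.symm⟩)]; simp, add_zero]
    refine (sum_le_sum_of_subset_of_nonneg (fun i hi => (mem_filter.1 hi).2)
      fun _ _ _ => sq_nonneg _).trans ?_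
    rw [sum_image inj]
    refine le_trans (sum_le_sum fun τ hτ => ?_) ((sum_W_sq L).le.trans hs)
    rw [← sq_abs]
    exact pow_le_pow_left₀ (abs_nonneg _) (fb τ hτ) 2
  · refine le_trans ?_ s2
    by_cases e : L' = L
    · subst e
      by_cases e2 : y = y' ∧ u = u'
      · obtain ⟨rfl, rfl⟩ := e2
        rw [sum_congr rfl fun τ hτ => by rw [fv τ (D_mono hm hτ), ← mul_assoc, ← sq]]
        exact hD m hm
      · classical
        let B := (D m).filter fun b => ∃ a ∈ D L', y' + tt L' b * u' = y + tt L' a * u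
        have hB : B.card ≤ 2 := not_lt.1 fun hc => e2 ((spec L').2.2 y u y' u' B hu hu'
          ((filter_subset _ _).trans (D_mono hm)) (fun b hb => (mem_filter.1 hb).2) hc)
        rw [← sum_subset (filter_subset _ _ : B ⊆ D m) fun b hb n => by
          rw [fv0 (φ L' y' u' b) fun a ha e => n (mem_filter.2 ⟨hb, a, ha, eq_of_heq (Sigma.mk.inj e).2⟩),
            mul_zero]]
        refine (abs_sum_le_sum_abs _ _).trans ((sum_le_card_nsmul _ _ 1 fun b hb => ?_).trans ?_)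
        · obtain ⟨-, a, ha, e⟩ := mem_filter.1 hb
          rw [abs_mul, abs_of_pos (W_pos b), show φ L' y' u' b = φ L' y u a from congrArg _ e]
          exact mul_le_one₀ (W_le b) (abs_nonneg _) ((fb a ha).trans (W_le a))
        · rw [nsmul_eq_mul, mul_one]; exact_mod_cast hB
    · rw [sum_eq_zero fun b _ => by 
        rw [fv0 (φ L' y' u' b) fun a _ h => e (Sigma.mk.inj h).1, mul_zero]]
      simp
  · refine le_trans ?_ ((le_abs_self _).trans (edge_le _ L y u L hu le_rfl))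
    rw [sum_congr rfl (g := fun τ => (1 - ρ) * (W τ ^ 2 * g (φ L y u τ) + W τ ^ 2 * ρ)) fun τ hτ => by
      rw [f_sum, fv τ hτ]
      simp only [g]
      split_ifs <;> ring, ← mul_sum, sum_add_distrib, ← sum_mul, sum_W_sq]
    have := (abs_le.1 (hD L le_rfl)).1
    nlinarith [mul_le_mul_of_nonneg_left ρ1 (show (0 : ℝ) ≤ L by linarith)]

theorem exists_cut {V : Type} [Fintype V] (ι : V → I) (hι : Function.Injective ι) (σ : ℕ ≃ I)
    (k : ℕ) (hk : k ≤ Fintype.card V) :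
    ∃ n, (univ.filter fun v => ι v ∈ (range n).map σ.toEmbedding).card = k := by
  classical
  simp only [mem_map_equiv, mem_range]
  have ex : ∃ n, k ≤ (univ.filter fun v => σ.symm (ι v) < n).card :=
    ⟨univ.sup (fun v => σ.symm (ι v)) + 1, by
      rwa [filter_true_of_mem (p := fun v => σ.symm (ι v) < univ.sup (fun v => σ.symm (ι v)) + 1)
        fun m hm => Nat.lt_succ_of_le (le_sup (f := fun v => σ.symm (ι v)) hm)]⟩
  refine ⟨Nat.find ex, le_antisymm ?_ (Nat.find_spec ex)⟩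
  rcases h0 : Nat.find ex with _ | p
  · simp
  have h1 := Nat.find_min ex (m := p) (by omega)
  have h2 : (univ.filter fun v => σ.symm (ι v) < p + 1) ⊆
      (univ.filter fun v => σ.symm (ι v) < p) ∪ univ.filter fun v => σ.symm (ι v) = p :=
    fun m hm => by simp only [mem_filter, mem_union, mem_univ, true_and] at *; omega
  have h3 : (univ.filter fun v => σ.symm (ι v) = p).card ≤ 1 := card_le_one.2 fun a ha b hb =>
    hι (σ.symm.injective ((mem_filter.1 ha).2.trans (mem_filter.1 hb).2.symm))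
  have := (card_le_card h2).trans (card_union_le _ _)
  omega

theorem no_order (σ : ℕ ≃ I) : ¬ ∀ v : X TT,
    Tendsto (fun n : ℕ => ∑ k ∈ range n, f TT (σ k) v • x TT (σ k)) atTop (𝓝 v) := fun h => by
  obtain ⟨K, hK⟩ := banach_steinhaus
    (g := fun n : ℕ => ∑ k ∈ range n, (f TT (σ k)).smulRight (x TT (σ k))) fun v => by
      obtain ⟨C, hC⟩ := (h v).norm.bddAbove_range
      exact ⟨C, fun n => by
        rw [_root_.sum_apply]; exact hC ⟨n, rfl⟩⟩
  obtain ⟨s, hs⟩ := exists_nat_gt (6 * K + 12)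
  have K0 : 0 ≤ K := (ContinuousLinearMap.opNorm_nonneg _).trans (hK 0)
  have s3 : 3 ≤ s := by exact_mod_cast (show (3 : ℝ) ≤ s by linarith)
  obtain ⟨n, hn⟩ := exists_cut (fun v : ZMod (pr (s ^ 2)) => (⟨s ^ 2, v⟩ : I))
    (fun a b e => eq_of_heq (Sigma.mk.inj e).2) σ (pr (s ^ 2) / 2) (by rw [ZMod.card]; omega)
  obtain ⟨v, h1, h2⟩ := bad (s ^ 2) (by nlinarith) _ hn s (by linarith) (by simp)
  have h3 := ContinuousLinearMap.le_of_opNorm_le_of_le _ (hK n) h1
  rw [_root_.sum_apply] at h3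
  rw [sum_map] at h2
  have h4 := h2.trans h3
  push_cast at h4
  nlinarith

theorem main : ∃ (e : ℕ → X TT) (e' : ℕ → X TT →L[ℝ] ℝ), (∀ i, ‖e i‖ = 1 ∧ ‖e' i‖ = 1) ∧
    (∀ i j : ℕ, e' i (e j) = if i = j then (1 : ℝ) else 0) ∧
    Dense ((Submodule.span ℝ (Set.range e) : Submodule ℝ (X TT)) : Set (X TT)) ∧
    (∀ x : X TT, (∀ i : ℕ, e' i x = 0) → x = 0) ∧
    (∀ (x : X TT) (A B : Finset ℕ), (∀ i ∈ A, ∀ j : ℕ, j ∉ A → ‖e' j x‖ ≤ ‖e' i x‖) →
      B.card ≤ A.card → ‖x - ∑ i ∈ A, e' i x • e i‖ ≤ 6 * ‖x - ∑ i ∈ B, e' i x • e i‖) ∧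
    ∀ π : Equiv.Perm ℕ, ¬ ∀ x : X TT,
      Tendsto (fun n : ℕ => ∑ k ∈ range n, e' (π k) x • e (π k)) atTop (𝓝 x) := by
  obtain ⟨ν⟩ : Nonempty (ℕ ≃ I) := nonempty_equiv_of_countable
  refine ⟨fun i => x TT (ν i), fun i => f TT (ν i), fun i => ⟨norm_x _ _, norm_f _ _⟩,
    fun i j => by simp [f_x], ?_, fun v h => total TT v fun i => by simpa using h (ν.symm i),
    fun v A B hA hB => ?_, fun π => no_order (π.trans ν)⟩
  · rw [show (Set.range fun i => x TT (ν i)) = Set.range (x TT) from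
      ν.surjective.range_comp (x TT)]
    exact dense_x TT
  · have := almost v (A.map ν.toEmbedding) (B.map ν.toEmbedding) (fun i hi j hj => by
      simpa using hA _ (mem_map_equiv.1 hi) _ (mt mem_map_equiv.2 hj)) (by simpa using hB)
    rwa [sum_map, sum_map] at this

end Pool.Agent.H.MP_9b8acd_an
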