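import Mathlib

namespace Pool.Agent.H.MP_9b8acd_an

open Finset MvPolynomial

theorem rel_eq {T : Type} (a b c a' b' c' : T)
    (h : ∀ z : T → ℤ, (z c - z a) * (z b' - z a') = (z b - z a) * (z c' - z a'))
    (ab : a ≠ b) (ac : a ≠ c) (bc : b ≠ c) (ab' : a' ≠ b') (ac' : a' ≠ c') (bc' : b' ≠ c') :
    a = a' := by
  classical
  by_contra n
  have h1 := h (fun i => if i = b then 1 else 0)
  have h2 := h (fun i => if i = c then 1 else 0)
  have h3 := h (fun i => if i = a then 1 else 0)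
  have h4 := h (fun i => if i = a ∨ i = b then 1 else 0)
  have h6 := h (fun i => if i = a ∨ i = b' then 1 else 0)
  have e1 : a' ≠ b := by rintro rfl; simp [ab, bc.symm, ac'.symm] at h1
  have e2 : b' ≠ c := by rintro rfl; simp [ac, bc, ab'] at h2
  have e3 : b' ≠ a := by rintro rfl; simp [ab.symm, ac.symm, ab', bc'.symm] at h3
  have e4 : c' ≠ a := by rintro rfl; simp [ab.symm, ac.symm, ac', bc'] at h3
  have e5 : b' ≠ b := by rintro rfl; simp [ac.symm, bc.symm, e1, Ne.symm n] at h4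
  simp [ac.symm, e2.symm, ab.symm, e5.symm, Ne.symm n, ab', e4, bc'.symm] at h6

theorem generic {T : Type} (S : Finset (MvPolynomial T ℤ)) (hS : ∀ q ∈ S, q ≠ 0) :
    ∃ (p : ℕ) (z : T → ℤ), p.Prime ∧ ∀ q ∈ S, ((eval z q : ℤ) : ZMod p) ≠ 0 := by
  have h : ∏ q ∈ S, q ≠ 0 := prod_ne_zero_iff.2 hS
  obtain ⟨z, hz⟩ : ∃ z : T → ℤ, eval z (∏ q ∈ S, q) ≠ 0 := by
    by_contra hn
    push Not at hn
    exact h (MvPolynomial.funext fun z => by rw [hn z, map_zero])
  obtain ⟨p, hp, pp⟩ := Nat.exists_infinite_primes ((eval z (∏ q ∈ S, q)).natAbs + 1)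
  refine ⟨p, z, pp, fun q hq h0 => ?_⟩
  have d := ((ZMod.intCast_zmod_eq_zero_iff_dvd _ _).1 h0).trans
    (map_dvd (eval z) (dvd_prod_of_mem (fun q => q) hq))
  have := Nat.le_of_dvd (Int.natAbs_pos.2 hz) (Int.natCast_dvd.1 d)
  omega

theorem rigid {T : Type} (D : Finset T) : ∃ (p : ℕ) (t : T → ZMod p), p.Prime ∧
    (∀ a ∈ D, ∀ b ∈ D, t a = t b → a = b) ∧
    ∀ (x u x' u' : ZMod p) (B : Finset T), u ≠ 0 → u' ≠ 0 → B ⊆ D →
      (∀ b ∈ B, ∃ a ∈ D, x' + t b * u' = x + t a * u) → 2 < B.card → x = x' ∧ u = u' := by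
  classical
  let R : (T × T × T) × T × T × T → MvPolynomial T ℤ := fun s =>
    (X s.1.2.2 - X s.1.1) * (X s.2.2.1 - X s.2.1) - (X s.1.2.1 - X s.1.1) * (X s.2.2.2 - X s.2.1)
  obtain ⟨p, z, pp, h⟩ := generic (((((D ×ˢ D ×ˢ D) ×ˢ D ×ˢ D ×ˢ D).image R) ∪
    (D ×ˢ D).image fun s => X s.1 - X s.2).filter (· ≠ 0)) fun q hq => (mem_filter.1 hq).2
  have := Fact.mk pp
  have inj : ∀ a ∈ D, ∀ b ∈ D, (z a : ZMod p) = z b → a = b := fun a ha b hb e => by
    by_contra n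
    refine h (X a - X b) (mem_filter.2 ⟨mem_union_right _ (mem_image.2 ⟨(a, b), by simp [ha, hb],
      rfl⟩), sub_ne_zero.2 fun h => n (X_injective h)⟩) (by simp [e])
  refine ⟨p, fun a => z a, pp, inj, fun x u x' u' B hu hu' hB H hc => ?_⟩
  obtain ⟨a', b', c', ha', hb', hc', n1, n2, n3⟩ := two_lt_card_iff.1 hc
  obtain ⟨a, ha, ea⟩ := H a' ha'
  obtain ⟨b, hb, eb⟩ := H b' hb'
  obtain ⟨c, hc, ec⟩ := H c' hc'
  have ne : ∀ r s r' s', r' ∈ B → s' ∈ B → r' ≠ s' → x' + z r' * u' = x + z r * u →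
      x' + z s' * u' = x + z s * u → r ≠ s := fun r s r' s' h1 h2 n e1 e2 e => by
    subst e
    exact n (inj _ (hB h1) _ (hB h2) (mul_right_cancel₀ hu' (add_left_cancel (e1.trans e2.symm))))
  have r0 : R ((a, b, c), a', b', c') = 0 := by
    by_contra n
    refine h _ (mem_filter.2 ⟨mem_union_left _ (mem_image.2 ⟨((a, b, c), a', b', c'),
      by simp [ha, hb, hc, hB ha', hB hb', hB hc'], rfl⟩), n⟩) ?_
    simp only [R, map_sub, map_mul, eval_X]
    push_cast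
    refine mul_right_cancel₀ hu' ?_
    linear_combination ((z c : ZMod p) - z a) * (eb - ea) - ((z b : ZMod p) - z a) * (ec - ea)
  have r1 : ∀ y : T → ℤ, (y c - y a) * (y b' - y a') = (y b - y a) * (y c' - y a') := fun y => by
    have := congrArg (eval y) r0
    simp only [R, map_sub, map_mul, eval_X, map_zero] at this
    exact sub_eq_zero.1 this
  have ab := ne _ _ _ _ ha' hb' n1 ea eb
  have ac := ne _ _ _ _ ha' hc' n2 ea ec
  have bc := ne _ _ _ _ hb' hc' n3 eb ec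
  obtain rfl := rel_eq a b c a' b' c' r1 ab ac bc n1 n2 n3
  obtain rfl := rel_eq b a c b' a c' (fun y => by linear_combination -r1 y) ab.symm bc ac n1.symm
    n3 n2
  have e : u = u' := by
    refine mul_left_cancel₀ (a := (z a : ZMod p) - z b)
      (sub_ne_zero.2 fun e => ab (inj _ ha _ hb e)) ?_
    linear_combination eb - ea
  subst e
  exact ⟨(add_right_cancel ea).symm, rfl⟩

end Pool.Agent.H.MP_9b8acd_an
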